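import Pool.Agent.Helper8.Sey.Basic

/-! Packet SEY-WIN (project SEY of helper8). -/

namespace Pool.Agent.Helper15.Sey

open Pool.Agent.Helper8.Sey

theorem coin_congr {V : Type} (P : Sys V) {x y : P.Lab} (h : x.2 = y.2) (j : ℕ) :
    P.coin x j = P.coin y j := by
  unfold Sys.coin
  rw [h]

theorem goalWIN : GoalWIN := by
  intro V _ P R j
  induction j with
  | zero =>
    intro g ω ω' hA v hv
    obtain ⟨h1, h2⟩ := hA v (Or.inl (by rw [hv]; exact P.self_mem_Win 0 g))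
    refine ⟨Iff.rfl, ?_⟩
    change P.coin (ω v) 0 < R 0 v (P.cls ω v) ↔ P.coin (ω' v) 0 < R 0 v (P.cls ω' v)
    rw [h1, coin_congr P h2]
  | succ j ih =>
    intro g ω ω' hA v hv
    have hA1 : P.Agree (P.Win j g) ω ω' := fun w hw =>
      hA w (hw.imp (fun h => P.Win_mono (Nat.le_succ j) g h) fun h => P.Win_mono (Nat.le_succ j) g h)
    have hA2 : P.Agree (P.Win j (g - 1)) ω ω' := fun w hw =>
      hA w (hw.imp (fun h => P.Win_pred j g h) fun h => P.Win_pred j g h)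
    obtain ⟨h1, h2⟩ := hA v (Or.inl (by rw [hv]; exact P.self_mem_Win _ g))
    obtain ⟨i1, i2⟩ := ih g ω ω' hA1 v hv
    have hU : P.U R ω (j + 1) v ↔ P.U R ω' (j + 1) v := by
      rw [P.U_succ, P.U_succ, i1, i2]
    have hFo : P.Fo R ω (j + 1) v ↔ P.Fo R ω' (j + 1) v := by
      have hmem : g - 1 ∈ P.Win (j + 1) g := P.Win_pred j g (P.self_mem_Win j (g - 1))
      constructor
      · rintro ⟨u, hu1, hu2, hu3⟩
        have hg : P.cls ω u = g - 1 := by rw [← hv, hu2]; ring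
        obtain ⟨h3, -⟩ := hA u (Or.inl (by rw [hg]; exact hmem))
        exact ⟨u, hu1, by rw [← h1, ← h3]; exact hu2, (ih (g - 1) ω ω' hA2 u hg).2.1 hu3⟩
      · rintro ⟨u, hu1, hu2, hu3⟩
        have hg' : P.cls ω' u = g - 1 := by rw [← hv, h1, hu2]; ring
        obtain ⟨h3, -⟩ := hA u (Or.inr (by rw [hg']; exact hmem))
        have hg : P.cls ω u = g - 1 := by rw [h3, hg']
        exact ⟨u, hu1, by rw [h1, h3]; exact hu2, (ih (g - 1) ω ω' hA2 u hg).2.2 hu3⟩
    refine ⟨hU, ?_⟩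
    rw [P.T_iff, P.T_iff, hU, hFo, h1, coin_congr P h2]

end Pool.Agent.Helper15.Sey
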